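import Pool.Agent.Helper91K1.PQ.Stm

/-!
# Two integers (statement `S_TWO`)
-/

set_option autoImplicit false

open MeasureTheory Filter Topology Finset

namespace Pool.Agent.Helper98.PQ

open Pool.Agent.Helper91K1.PQ

lemma vol_floor {B : Set ℤ} (hB : B.Finite) : volume {u : ℝ | ⌊u⌋ ∈ B} ≤ (B.ncard : ENNReal) := by
  classical
  have e : {u : ℝ | ⌊u⌋ ∈ B} = ⋃ m ∈ hB.toFinset, Set.Ico (m : ℝ) (m + 1) := by
    ext u
    simp only [Set.mem_ofPred_eq, Set.mem_iUnion, Set.Finite.mem_toFinset, Set.mem_Ico, exists_prop]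
    constructor
    · intro h
      exact ⟨⌊u⌋, h, Int.floor_le u, Int.lt_floor_add_one u⟩
    · rintro ⟨m, hm, h1, h2⟩
      have : ⌊u⌋ = m := Int.floor_eq_iff.2 ⟨h1, h2⟩
      rwa [this]
  rw [e]
  refine (measure_biUnion_finset_le _ _).trans ?_
  have h1 : ∀ m ∈ hB.toFinset, volume (Set.Ico (m : ℝ) (m + 1)) = 1 := by
    intro m _
    rw [Real.volume_Ico]
    simp
  rw [Finset.sum_congr rfl h1, Finset.sum_const, nsmul_eq_mul, mul_one,
    Set.ncard_eq_toFinset_card B hB]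

lemma one_dim {L T : ℕ} (hL : 1 ≤ L) {A : Set ℤ} (hA : Sub L T A) {α β : ℝ} (hαβ : α ≤ β) :
    volume {u : ℝ | u ∈ Set.Icc α β ∧ ⌊u⌋ ∈ A} ≤
      ENNReal.ofReal ((β - α) * (T / L) + 2 * T) := by
  classical
  set B : Set ℤ := A ∩ Set.Icc ⌊α⌋ ⌊β⌋ with hBdef
  have hBf : B.Finite := (Set.finite_Icc _ _).subset Set.inter_subset_right
  have hsub : {u : ℝ | u ∈ Set.Icc α β ∧ ⌊u⌋ ∈ A} ⊆ {u : ℝ | ⌊u⌋ ∈ B} := by
    rintro u ⟨⟨h1, h2⟩, h3⟩
    exact ⟨h3, Int.floor_le_floor h1, Int.floor_le_floor h2⟩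
  refine (measure_mono hsub).trans ((vol_floor hBf).trans ?_)
  have hL0 : (0 : ℤ) < (L : ℤ) := by exact_mod_cast hL
  have hL0' : (0 : ℝ) < (L : ℝ) := by exact_mod_cast hL
  set k₀ : ℤ := (⌊α⌋ - 1) / (L : ℤ) with hk₀
  set k₁ : ℤ := (⌊β⌋ - 1) / (L : ℤ) with hk₁
  have hk : k₀ ≤ k₁ := Int.ediv_le_ediv hL0 (by
    have := Int.floor_le_floor hαβ
    omega)
  have hfin : ∀ k : ℤ, (A ∩ Set.Ioc (k * (L : ℤ)) (k * L + L)).Finite := fun k =>
    (Set.finite_Ioc _ _).subset Set.inter_subset_right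
  have hcov : hBf.toFinset ⊆ (Finset.Icc k₀ k₁).biUnion fun k => (hfin k).toFinset := by
    intro m hm
    rw [Set.Finite.mem_toFinset] at hm
    obtain ⟨hmA, hm1, hm2⟩ := hm
    rw [Finset.mem_biUnion]
    refine ⟨(m - 1) / (L : ℤ), ?_, ?_⟩
    · rw [Finset.mem_Icc]
      exact ⟨Int.ediv_le_ediv hL0 (by omega), Int.ediv_le_ediv hL0 (by omega)⟩
    · rw [Set.Finite.mem_toFinset]
      refine ⟨hmA, ?_⟩
      have h1 := Int.emod_add_mul_ediv (m - 1) (L : ℤ)
      have h2 := Int.emod_nonneg (m - 1) hL0.ne'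
      have h3 := Int.emod_lt_of_pos (m - 1) hL0
      have h4 : (m - 1) / (L : ℤ) * L = (L : ℤ) * ((m - 1) / (L : ℤ)) := mul_comm _ _
      constructor
      · rw [h4]; omega
      · rw [h4]; omega
  have hcard : B.ncard ≤ (Finset.Icc k₀ k₁).card * T := by
    rw [Set.ncard_eq_toFinset_card B hBf]
    refine (Finset.card_le_card hcov).trans (Finset.card_biUnion_le_card_mul _ _ _ ?_)
    intro k _
    rw [← Set.ncard_eq_toFinset_card _ (hfin k)]
    exact hA k
  have hnum : ((Finset.Icc k₀ k₁).card : ℝ) ≤ (β - α) / L + 2 := by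
    have e1 : ((Finset.Icc k₀ k₁).card : ℤ) = k₁ + 1 - k₀ := by
      rw [Int.card_Icc]
      omega
    have e2 : ((Finset.Icc k₀ k₁).card : ℝ) = (k₁ : ℝ) + 1 - k₀ := by exact_mod_cast e1
    rw [e2]
    have h1 := Int.emod_add_mul_ediv (⌊α⌋ - 1) (L : ℤ)
    have h2 := Int.emod_lt_of_pos (⌊α⌋ - 1) hL0
    have h3 := Int.emod_add_mul_ediv (⌊β⌋ - 1) (L : ℤ)
    have h4 := Int.emod_nonneg (⌊β⌋ - 1) hL0.ne'
    rw [← hk₀] at h1
    rw [← hk₁] at h3
    have h5 : (L : ℤ) * k₁ ≤ ⌊β⌋ - 1 := by omega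
    have h6 : ⌊α⌋ - 1 + 1 ≤ (L : ℤ) * k₀ + L := by omega
    have h5' : (L : ℝ) * k₁ ≤ (⌊β⌋ : ℝ) - 1 := by exact_mod_cast h5
    have h6' : (⌊α⌋ : ℝ) - 1 + 1 ≤ (L : ℝ) * k₀ + L := by exact_mod_cast h6
    have h7 := Int.floor_le β
    have h8 := Int.lt_floor_add_one α
    have h9 : (L : ℝ) * ((k₁ : ℝ) + 1 - k₀) ≤ (β - α) + 2 * L := by nlinarith
    have h10 : (k₁ : ℝ) + 1 - k₀ ≤ ((β - α) + 2 * L) / L := by
      rw [le_div_iff₀ hL0']
      linarith
    refine h10.trans (le_of_eq ?_)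
    field_simp
  have hT : (0 : ℝ) ≤ T := Nat.cast_nonneg T
  have hreal : (B.ncard : ℝ) ≤ (β - α) * (T / L) + 2 * T := by
    calc (B.ncard : ℝ) ≤ ((Finset.Icc k₀ k₁).card : ℝ) * T := by exact_mod_cast hcard
      _ ≤ ((β - α) / L + 2) * T := mul_le_mul_of_nonneg_right hnum hT
      _ = _ := by ring
  calc (B.ncard : ENNReal) = ENNReal.ofReal (B.ncard : ℝ) := (ENNReal.ofReal_natCast _).symm
    _ ≤ _ := ENNReal.ofReal_le_ofReal hreal

lemma affine {L T : ℕ} (hL : 1 ≤ L) (hT : T ≤ L) {A : Set ℤ} (hA : Sub L T A) {c l θ : ℝ}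
    (hl : l ≠ 0) (hθ : 0 ≤ θ) :
    volume {t : ℝ | t ∈ Set.Icc 0 θ ∧ ⌊c + l * t⌋ ∈ A} ≤
      ENNReal.ofReal (θ * (T / L) + 2 * L / |l|) := by
  have hab : 0 < |l| := abs_pos.2 hl
  set α : ℝ := min c (c + l * θ) with hα
  set β : ℝ := max c (c + l * θ) with hβ
  have hαβ : α ≤ β := min_le_max
  have hlen : β - α = |l| * θ := by
    rw [hα, hβ, max_sub_min_eq_abs']
    rw [show c - (c + l * θ) = -(l * θ) by ring, abs_neg, abs_mul, abs_of_nonneg hθ]
  have hsub : {t : ℝ | t ∈ Set.Icc 0 θ ∧ ⌊c + l * t⌋ ∈ A} ⊆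
      (fun t : ℝ => l * t) ⁻¹' ((fun y : ℝ => c + y) ⁻¹' {u : ℝ | u ∈ Set.Icc α β ∧ ⌊u⌋ ∈ A}) := by
    rintro t ⟨⟨h0, h1⟩, h2⟩
    refine ⟨⟨?_, ?_⟩, h2⟩
    · rcases le_or_gt 0 l with h | h
      · exact (min_le_left _ _).trans (by nlinarith)
      · exact (min_le_right _ _).trans (by nlinarith)
    · rcases le_or_gt 0 l with h | h
      · exact le_trans (by nlinarith) (le_max_right _ _)
      · exact le_trans (by nlinarith) (le_max_left _ _)
  refine (measure_mono hsub).trans ?_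
  rw [Real.volume_preimage_mul_left hl, measure_preimage_add]
  refine (mul_le_mul' le_rfl (one_dim hL hA hαβ)).trans ?_
  rw [← ENNReal.ofReal_mul (abs_nonneg _), hlen, abs_inv]
  refine ENNReal.ofReal_le_ofReal ?_
  have hTL : (T : ℝ) ≤ L := by exact_mod_cast hT
  have e : |l|⁻¹ * (|l| * θ * (T / L) + 2 * T) = θ * (T / L) + 2 * T / |l| := by
    field_simp
  rw [e]
  gcongr

lemma meas_mm (s : ℝ) (N : ℕ) (A : Set ℤ) : MeasurableSet {x : ℝ × ℝ | mm s N x ∈ A} := by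
  have h : Measurable (mm s N) := by
    unfold mm
    exact Int.measurable_floor.comp (by fun_prop)
  exact h (MeasurableSet.of_discrete)

lemma box_fin (b b' R : ℝ) : volume (box b b' R) ≠ ⊤ :=
  (isCompact_Icc.prod isCompact_Icc).measure_lt_top.ne

theorem t_TWO : S_TWO := by
  intro b b' R η hb hR hη L T hL hT N M hN hM hNM s s' A A' hA'
  have hN0 : (0 : ℝ) < N := by exact_mod_cast hN
  have hM0 : (0 : ℝ) < M := by exact_mod_cast hM
  have hMN : (M : ℝ) - N ≠ 0 := by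
    intro h
    have : (M : ℝ) = N := by linarith
    exact hNM (by exact_mod_cast this.symm)
  set θ : ℝ := η / N with hθ
  have hθ0 : 0 < θ := div_pos hη hN0
  set l : ℝ := M * ((M : ℝ) - N) with hl
  have hl0 : l ≠ 0 := mul_ne_zero hM0.ne' hMN
  set S : Set (ℝ × ℝ) := {x | x ∈ box b b' R ∧ mm s N x ∈ A ∧ mm s' M x ∈ A'} with hS
  set S1 : Set (ℝ × ℝ) := {x | x ∈ box (b - η / N) b' (R + η) ∧ mm s N x ∈ A} with hS1
  set B : ℝ := θ * (T / L) + 2 * L / |l| with hB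
  have hB0 : 0 ≤ B := by positivity
  have hS1m : MeasurableSet S1 :=
    (measurableSet_Icc.prod measurableSet_Icc).inter (meas_mm s N A)
  -- the set of the pairs
  set U : Set (ℝ × (ℝ × ℝ)) := {q | q.2 ∈ S1 ∧ mm s' M (q.2 + (q.1, -(q.1 * N))) ∈ A'} with hU
  have hUm : MeasurableSet U := by
    refine (measurable_snd hS1m).inter ?_
    have h : Measurable (fun q : ℝ × (ℝ × ℝ) => q.2 + (q.1, -(q.1 * N))) := by fun_prop
    exact h (meas_mm s' M A')
  set ν : Measure ℝ := volume.restrict (Set.Icc 0 θ) with hν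
  have key1 : ENNReal.ofReal θ * volume S ≤ (ν.prod (volume : Measure (ℝ × ℝ))) U := by
    rw [Measure.prod_apply hUm]
    have h1 : ENNReal.ofReal θ * volume S = ∫⁻ _ in Set.Icc 0 θ, volume S := by
      rw [setLIntegral_const, Real.volume_Icc, sub_zero, mul_comm]
    rw [h1]
    refine setLIntegral_mono' measurableSet_Icc ?_
    rintro t ⟨ht0, ht1⟩
    have h2 : volume S = volume ((fun x : ℝ × ℝ => x + (t, -(t * N))) ⁻¹' S) :=
      (measure_preimage_add_right _ _ _).symm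
    rw [h2]
    refine measure_mono ?_
    rintro x ⟨hx1, hx2, hx3⟩
    have htN : t * N ≤ η := by
      calc t * N ≤ θ * N := mul_le_mul_of_nonneg_right ht1 hN0.le
        _ = η := by rw [hθ]; field_simp
    have htN0 : 0 ≤ t * N := by positivity
    obtain ⟨⟨ha, ha'⟩, ⟨hc, hc'⟩⟩ := hx1
    simp only [Prod.fst_add, Prod.snd_add] at ha ha' hc hc'
    refine ⟨⟨⟨⟨?_, ?_⟩, ⟨?_, ?_⟩⟩, ?_⟩, hx3⟩
    · show b - η / N ≤ x.1
      rw [← hθ]; linarith
    · show x.1 ≤ b'
      linarith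
    · show -(R + η) ≤ x.2
      linarith
    · show x.2 ≤ R + η
      linarith
    · have e : mm s N (x + (t, -(t * N))) = mm s N x := by
        unfold mm
        congr 1
        simp only [Prod.fst_add, Prod.snd_add]
        ring
      show mm s N x ∈ A
      rw [← e]
      exact hx2
  have key2 : (ν.prod (volume : Measure (ℝ × ℝ))) U ≤ ENNReal.ofReal B * volume S1 := by
    rw [Measure.prod_apply_symm hUm]
    have h1 : ∀ x : ℝ × ℝ, ν ((fun t => (t, x)) ⁻¹' U) ≤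
        S1.indicator (fun _ => ENNReal.ofReal B) x := by
      intro x
      by_cases hx : x ∈ S1
      · rw [Set.indicator_of_mem hx]
        have hm : MeasurableSet ((fun t : ℝ => (t, x)) ⁻¹' U) := by
          have h : Measurable (fun t : ℝ => (t, x)) := by fun_prop
          exact h hUm
        rw [hν, Measure.restrict_apply hm]
        refine le_trans (measure_mono ?_)
          (affine (c := x.1 * (M : ℝ) ^ 2 + x.2 * M + s') hL hT hA' hl0 hθ0.le)
        rintro t ⟨⟨_, h2⟩, h3⟩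
        refine ⟨h3, ?_⟩
        have e : mm s' M (x + (t, -(t * N))) =
            ⌊x.1 * (M : ℝ) ^ 2 + x.2 * M + s' + l * t⌋ := by
          unfold mm
          congr 1
          simp only [Prod.fst_add, Prod.snd_add]
          rw [hl]
          ring
        rw [← e]
        exact h2
      · rw [Set.indicator_of_notMem hx]
        have : (fun t : ℝ => (t, x)) ⁻¹' U = ∅ := by
          ext t
          simp only [Set.mem_preimage, Set.mem_empty_iff_false, iff_false]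
          rintro ⟨h, _⟩
          exact hx h
        rw [this]
        simp
    refine (lintegral_mono h1).trans ?_
    rw [lintegral_indicator_const hS1m]
  have hSfin : volume S ≠ ⊤ :=
    ((measure_mono (fun x hx => hx.1)).trans_lt (box_fin b b' R).lt_top).ne
  have hS1fin : volume S1 ≠ ⊤ :=
    ((measure_mono (fun x hx => hx.1)).trans_lt (box_fin (b - η / N) b' (R + η)).lt_top).ne
  have key3 : θ * volume.real S ≤ B * volume.real S1 := by
    have h := ENNReal.toReal_mono (ENNReal.mul_ne_top ENNReal.ofReal_ne_top hS1fin)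
      (key1.trans key2)
    rwa [ENNReal.toReal_mul, ENNReal.toReal_mul, ENNReal.toReal_ofReal hθ0.le,
      ENNReal.toReal_ofReal hB0] at h
  have e : ((T : ℝ) / L + 2 * L * N / (η * M * |(M : ℝ) - N|)) = B / θ := by
    rw [hB, hθ, hl, abs_mul, abs_of_pos hM0]
    have : |(M : ℝ) - N| ≠ 0 := abs_ne_zero.2 hMN
    field_simp
  rw [e, div_mul_eq_mul_div, le_div_iff₀ hθ0, mul_comm]
  exact key3

end Pool.Agent.Helper98.PQ
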